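import Pool.Agent.Lib.MP_4dc748_co.BR.US
import Pool.Agent.Lib.MP_4dc748_co.TE.Cls7

/-!
# No class with 7 points
-/

set_option autoImplicit false

namespace Pool.Agent.Lib.MP_4dc748_co.C7

/-- No arc with 99 points has a class with 7 points and no class with 8 points. -/
theorem no_seven (K : Fin 21 → Finset (RS.F4 × RS.F4)) (hK : RS.LineBound RS.F4.frob 7 K)
    (h99 : ∑ p, (K p).card = 99) (hle : ∀ p, (K p).card ≤ 7) (h7 : ∃ p, (K p).card = 7) : False := by
  have hU := BR.US_of_RS K hK h99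
  obtain ⟨A, hA⟩ := TE.exists_CArc _ hU
  obtain ⟨y, hy⟩ := h7
  obtain ⟨p, n, m, h1, h2, h3⟩ := TE.cls7 A (fun x => by rw [hA]; exact hle _)
    ⟨BR.sgi y, by rw [hA, BR.sg_sgi]; exact hy⟩
  have h4 : (fun x => (K (BR.sg (p x))).card) = TE.uB := by
    rw [← h3]
    funext x
    rw [hA]
  have h5 := TE.US_comp _ p n m false h1 h2 hU
  rw [h4] at h5
  obtain ⟨B, hB⟩ := TE.exists_CArc _ h5
  exact TE.noB B hB

end Pool.Agent.Lib.MP_4dc748_co.C7
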